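import Pool.Agent.Helper470.DimT.Asm

set_option autoImplicit false

/-!
Every finite abelian group `A` generates a variety of dimension at most two.  All definitions used
in the statement are in `Pool/Agent/Helper470/DimT/Stmt.lean`.
-/

namespace Pool.Agent.Results.MP_001d24_al.DimTwo

open Pool.Agent.Helper470.DimT

/-- For every finite abelian group `A` the SC-theory of the variety generated by `A` has a basis,
and every basis has at most two elements; this holds both when nullary operation symbols are
allowed in strong Mal'cev conditions and when they are not. -/
theorem result (A : Type) [CommGroup A] [Finite A] :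
    ((∃ B, IsBasis B (SC anyArity (VG A))) ∧ dim anyArity (VG A) ≤ 2) ∧
      ((∃ B, IsBasis B (SC posArity (VG A))) ∧ dim posArity (VG A) ≤ 2) :=
  ⟨main_any A, main_pos A⟩

end Pool.Agent.Results.MP_001d24_al.DimTwo
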